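import Mathlib

/-!
# The rising sun lemma for the integration of the information along the windows

`N` is the information of the context at the window `a`, `Vl` its volume, `e` the portion of dead
windows. The increments of `N` are at least the increments of `Vl` at the windows outside a set `U`
(the rows are full); on every interval the same holds up to `C` times the length and up to the
number of dead windows in a longer interval (two samples). Then the same holds on the whole range,
up to small errors.
-/

set_option autoImplicit false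

namespace Pool.RSL

open Finset

/-- The number of the left end points of intervals on which the mean of `e` is at least `c`. -/
theorem card_le {n : ℕ} {e : ℕ → ℝ} (he : ∀ v, 0 ≤ e v) {c : ℝ} (hc : 0 < c) (W : Finset ℕ)
    (hW : ∀ v ∈ W, v < n ∧ ∃ v' : ℕ, v < v' ∧ v' ≤ n ∧
      c * ((v' : ℝ) - v) ≤ ∑ u ∈ Ico v v', e u) :
    c * W.card ≤ ∑ u ∈ range n, e u := by
  have key : ∀ k a : ℕ, a ≤ n → n - a = k →
      c * ((W.filter fun v => a ≤ v).card : ℝ) ≤ ∑ u ∈ Ico a n, e u := by
    intro k
    induction k using Nat.strong_induction_on with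
    | _ k ih =>
      intro a ha hk
      rcases Nat.eq_or_lt_of_le ha with h | h
      · have h0 : W.filter (fun v => a ≤ v) = ∅ := by
          refine Finset.filter_eq_empty_iff.2 fun v hv => ?_
          have := (hW v hv).1
          omega
        rw [h0]
        simp only [Finset.card_empty, Nat.cast_zero, mul_zero]
        exact Finset.sum_nonneg fun u _ => he u
      · by_cases haW : a ∈ W
        · obtain ⟨-, v', h1, h2, h3⟩ := hW a haW
          have h4 := ih (n - v') (by omega) v' h2 rfl
          have h5 : (W.filter fun v => a ≤ v) ⊆ Ico a v' ∪ W.filter fun v => v' ≤ v := by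
            intro v hv
            rw [Finset.mem_filter] at hv
            rw [Finset.mem_union, Finset.mem_Ico, Finset.mem_filter]
            by_cases h6 : v < v'
            · exact Or.inl ⟨hv.2, h6⟩
            · exact Or.inr ⟨hv.1, not_lt.1 h6⟩
          have h6 := (Finset.card_le_card h5).trans (Finset.card_union_le _ _)
          rw [Nat.card_Ico] at h6
          have h7 : ((W.filter fun v => a ≤ v).card : ℝ) ≤
              ((v' : ℝ) - a) + ((W.filter fun v => v' ≤ v).card : ℝ) := by
            have : ((W.filter fun v => a ≤ v).card : ℝ) ≤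
                ((v' - a : ℕ) : ℝ) + ((W.filter fun v => v' ≤ v).card : ℝ) := by
              exact_mod_cast h6
            rwa [Nat.cast_sub h1.le] at this
          rw [← Finset.sum_Ico_consecutive e h1.le h2]
          have h8 := mul_le_mul_of_nonneg_left h7 hc.le
          linarith
        · have h4 := ih (n - (a + 1)) (by omega) (a + 1) (by omega) rfl
          have h5 : (W.filter fun v => a ≤ v) = W.filter fun v => a + 1 ≤ v := by
            refine Finset.filter_congr fun v hv => ?_
            constructor
            · intro h6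
              rcases Nat.eq_or_lt_of_le h6 with h7 | h7
              · exact (haW (h7 ▸ hv)).elim
              · exact h7
            · intro h6
              omega
          rw [h5, Finset.sum_eq_sum_Ico_succ_bot h]
          have := he a
          linarith
  have h := key (n - 0) 0 (Nat.zero_le _) rfl
  have h1 : (W.filter fun v => 0 ≤ v) = W := Finset.filter_true_of_mem fun v _ => Nat.zero_le v
  rw [h1] at h
  rwa [Finset.range_eq_Ico]

/-- **The rising sun lemma.** -/
theorem rsl {n : ℕ} {N Vl e : ℕ → ℝ} {U : Finset ℕ} {C lam kap err : ℝ}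
    (hN : ∀ a b : ℕ, a ≤ b → b ≤ n → N a ≤ N b) (hV : ∀ a b : ℕ, a ≤ b → b ≤ n → Vl a ≤ Vl b)
    (he0 : ∀ v, 0 ≤ e v) (he1 : ∀ v, e v ≤ 1) (hC : 0 ≤ C) (hl : 1 ≤ lam) (hk : 0 < kap)
    (hkl : 2 ≤ kap * lam) (herr : 0 ≤ err)
    (hend : ∀ a ≤ n, Vl n - Vl a ≤ lam * ((n : ℝ) - a))
    (hX : ∀ a b : ℕ, a < b → b ≤ n → (Vl b - Vl a) - C * ((b : ℝ) - a) -
      ∑ v ∈ Ico a (min n (a + ⌈Vl b - Vl a⌉₊)), e v ≤ N b - N a)
    (hF : ∀ a < n, a ∉ U → Vl (a + 1) - Vl a - err ≤ N (a + 1) - N a) :
    (Vl n - Vl 0) - (n * err + lam * U.card + (C / lam + kap) * (Vl n - Vl 0) +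
      8 * lam / kap * ∑ v ∈ range n, e v) ≤ N n - N 0 := by
  classical
  have hl0 : 0 < lam := lt_of_lt_of_le one_pos hl
  obtain ⟨W, hWdef⟩ : ∃ W : Finset ℕ, W = (range n).filter fun v => ∃ v' : ℕ, v < v' ∧ v' ≤ n ∧
    kap / 4 * ((v' : ℝ) - v) ≤ ∑ u ∈ Ico v v', e u := ⟨_, rfl⟩
  have hWc : kap / 4 * W.card ≤ ∑ u ∈ range n, e u := by
    refine card_le he0 (by positivity) W fun v hv => ?_
    rw [hWdef, Finset.mem_filter, Finset.mem_range] at hv
    exact hv
  have hCk : 0 ≤ C / lam + kap := by positivity
  obtain ⟨g, hg⟩ : ∃ g : ℕ → ℝ, g = fun v => err + (if v ∈ U then lam else 0) +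
    (if v ∈ W then 2 * lam else 0) := ⟨_, rfl⟩
  have hg0 : ∀ v, 0 ≤ g v := by
    intro v
    rw [hg]
    have h1 : (0 : ℝ) ≤ if v ∈ U then lam else 0 := by split_ifs <;> linarith
    have h2 : (0 : ℝ) ≤ if v ∈ W then 2 * lam else 0 := by split_ifs <;> linarith
    show 0 ≤ err + (if v ∈ U then lam else 0) + (if v ∈ W then 2 * lam else 0)
    linarith
  have hgU : ∀ v, v ∈ U → lam ≤ g v := by
    intro v hv
    rw [hg]
    have h2 : (0 : ℝ) ≤ if v ∈ W then 2 * lam else 0 := by split_ifs <;> linarith
    show lam ≤ err + (if v ∈ U then lam else 0) + (if v ∈ W then 2 * lam else 0)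
    rw [if_pos hv]
    linarith
  have hgW : ∀ v, v ∈ W → 2 * lam ≤ g v := by
    intro v hv
    rw [hg]
    have h2 : (0 : ℝ) ≤ if v ∈ U then lam else 0 := by split_ifs <;> linarith
    show 2 * lam ≤ err + (if v ∈ U then lam else 0) + (if v ∈ W then 2 * lam else 0)
    rw [if_pos hv]
    linarith
  have hge : ∀ v, err ≤ g v := by
    intro v
    rw [hg]
    have h1 : (0 : ℝ) ≤ if v ∈ U then lam else 0 := by split_ifs <;> linarith
    have h2 : (0 : ℝ) ≤ if v ∈ W then 2 * lam else 0 := by split_ifs <;> linarith
    show err ≤ err + (if v ∈ U then lam else 0) + (if v ∈ W then 2 * lam else 0)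
    linarith
  have drop : ∀ x : ℝ, 0 ≤ x → (1 - (C / lam + kap)) * x ≤ x := by
    intro x hx
    have := mul_nonneg hCk hx
    linarith
  have key : ∀ k a : ℕ, a ≤ n → n - a = k →
      (1 - (C / lam + kap)) * (Vl n - Vl a) - ∑ v ∈ Ico a n, g v ≤ N n - N a := by
    intro k
    induction k using Nat.strong_induction_on with
    | _ k ih =>
      intro a ha hk'
      rcases Nat.eq_or_lt_of_le ha with h | h
      · subst h
        simp
      -- one step, from `a` to `b`
      have step : ∀ b : ℕ, a < b → b ≤ n →
          (1 - (C / lam + kap)) * (Vl b - Vl a) - ∑ v ∈ Ico a b, g v ≤ N b - N a →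
          (1 - (C / lam + kap)) * (Vl n - Vl a) - ∑ v ∈ Ico a n, g v ≤ N n - N a := by
        intro b hab hbn hb
        have h1 := ih (n - b) (by omega) b hbn rfl
        rw [← Finset.sum_Ico_consecutive g hab.le hbn]
        linarith
      by_cases hS : ∃ b : ℕ, b ∈ Ioc a n ∧ lam * ((b : ℝ) - a) < Vl b - Vl a
      · obtain ⟨S, hSdef⟩ : ∃ S : Finset ℕ,
          S = (Ioc a n).filter fun b : ℕ => lam * ((b : ℝ) - a) < Vl b - Vl a := ⟨_, rfl⟩
        have hSn : S.Nonempty := by
          obtain ⟨b, hb1, hb2⟩ := hS
          exact ⟨b, by rw [hSdef]; exact Finset.mem_filter.2 ⟨hb1, hb2⟩⟩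
        obtain ⟨b, hb⟩ : ∃ b, b = S.max' hSn := ⟨_, rfl⟩
        have hbS : b ∈ S := hb ▸ S.max'_mem hSn
        have hbS' := hbS
        rw [hSdef, Finset.mem_filter, Finset.mem_Ioc] at hbS'
        obtain ⟨⟨hab, hbn⟩, hst⟩ := hbS'
        have hbn' : b < n := by
          rcases Nat.eq_or_lt_of_le hbn with h1 | h1
          · rw [h1] at hst
            exact (not_lt.2 (hend a ha) hst).elim
          · exact h1
        have hnext : Vl (b + 1) - Vl a ≤ lam * (((b + 1 : ℕ) : ℝ) - a) := by
          by_contra hcon
          have h1 : b + 1 ∈ S := by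
            rw [hSdef, Finset.mem_filter, Finset.mem_Ioc]
            exact ⟨⟨by omega, hbn'⟩, not_le.1 hcon⟩
          have h2 := S.le_max' _ h1
          rw [← hb] at h2
          omega
        have hab' : (1 : ℝ) ≤ (b : ℝ) - a := by
          have : (a : ℝ) + 1 ≤ b := by exact_mod_cast hab
          linarith
        have hD1 : Vl b - Vl a ≤ 2 * lam * ((b : ℝ) - a) := by
          have h1 := hV b (b + 1) (Nat.le_succ b) hbn'
          push_cast at hnext
          nlinarith
        have hDl : lam ≤ Vl b - Vl a := by nlinarith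
        have hD0 : 0 ≤ Vl b - Vl a := hl0.le.trans hDl
        refine step b hab hbn ?_
        have hNb := hN a b hab.le hbn
        by_cases hgood : ∑ v ∈ Ico a (min n (a + ⌈Vl b - Vl a⌉₊)), e v ≤ kap * (Vl b - Vl a)
        · have h1 := hX a b hab hbn
          have h2 : C * ((b : ℝ) - a) ≤ C / lam * (Vl b - Vl a) := by
            rw [div_mul_eq_mul_div, le_div_iff₀ hl0]
            nlinarith
          have h3 : 0 ≤ ∑ v ∈ Ico a b, g v := Finset.sum_nonneg fun v _ => hg0 v
          linarith
        · have hbad := not_le.1 hgood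
          have hWab : ∀ v ∈ Ico a b, v ∈ W := by
            intro v hv
            rw [Finset.mem_Ico] at hv
            have hcl := Nat.le_ceil (Vl b - Vl a)
            have hcl2 := Nat.ceil_lt_add_one hD0
            have hvb : (v : ℝ) < b := by exact_mod_cast hv.2
            have hva : (a : ℝ) ≤ v := by exact_mod_cast hv.1
            have h1 : b ≤ a + ⌈Vl b - Vl a⌉₊ := by
              have : (b : ℝ) ≤ ((a + ⌈Vl b - Vl a⌉₊ : ℕ) : ℝ) := by
                push_cast
                nlinarith
              exact_mod_cast this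
            have h2 : b ≤ min n (a + ⌈Vl b - Vl a⌉₊) := le_min hbn h1
            have h3 : min n (a + ⌈Vl b - Vl a⌉₊) ≤ n := min_le_left _ _
            have h4 : ((min n (a + ⌈Vl b - Vl a⌉₊) : ℕ) : ℝ) ≤ a + ⌈Vl b - Vl a⌉₊ := by
              exact_mod_cast min_le_right n (a + ⌈Vl b - Vl a⌉₊)
            generalize min n (a + ⌈Vl b - Vl a⌉₊) = v' at hbad h2 h3 h4
            rw [hWdef, Finset.mem_filter, Finset.mem_range]
            refine ⟨by omega, v', by omega, h3, ?_⟩
            rw [← Finset.sum_Ico_consecutive e hv.1 (by omega : v ≤ v')] at hbad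
            have h5 : ∑ u ∈ Ico a v, e u ≤ (v : ℝ) - a := by
              refine (Finset.sum_le_sum fun u _ => he1 u).trans (le_of_eq ?_)
              rw [Finset.sum_const, Nat.card_Ico, nsmul_eq_mul, mul_one, Nat.cast_sub hv.1]
            have h6 : (b : ℝ) - a ≤ kap / 2 * (Vl b - Vl a) := by
              have e1 : 2 * ((b : ℝ) - a) ≤ kap * lam * ((b : ℝ) - a) :=
                mul_le_mul_of_nonneg_right hkl (by linarith)
              have e2 : kap * (lam * ((b : ℝ) - a)) ≤ kap * (Vl b - Vl a) :=
                mul_le_mul_of_nonneg_left hst.le hk.le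
              nlinarith
            have h7 : (v' : ℝ) - v ≤ 2 * (Vl b - Vl a) := by linarith
            have h8 := mul_le_mul_of_nonneg_left h7 (by positivity : 0 ≤ kap / 4)
            linarith
          have h1 : 2 * lam * ((b : ℝ) - a) ≤ ∑ v ∈ Ico a b, g v := by
            have h2 : ∑ v ∈ Ico a b, 2 * lam ≤ ∑ v ∈ Ico a b, g v :=
              Finset.sum_le_sum fun v hv => hgW v (hWab v hv)
            rw [Finset.sum_const, Nat.card_Ico, nsmul_eq_mul, Nat.cast_sub hab.le] at h2
            linarith
          have h2 := drop _ hD0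
          linarith
      · push Not at hS
        refine step (a + 1) (Nat.lt_succ_self a) h ?_
        have h1 := hS (a + 1) (Finset.mem_Ioc.2 ⟨Nat.lt_succ_self a, h⟩)
        have h2 : Vl (a + 1) - Vl a ≤ lam := by
          push_cast at h1
          linarith
        have h3 : 0 ≤ Vl (a + 1) - Vl a := by
          have := hV a (a + 1) (Nat.le_succ a) h
          linarith
        have h4 := drop _ h3
        have h5 : ∑ v ∈ Ico a (a + 1), g v = g a := by simp
        rw [h5]
        by_cases hU : a ∈ U
        · have h6 := hgU a hU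
          have h7 := hN a (a + 1) (Nat.le_succ a) h
          linarith
        · have h6 := hF a h hU
          have h7 := hge a
          linarith
  have h := key (n - 0) 0 (Nat.zero_le _) rfl
  have hsum : ∑ v ∈ Ico 0 n, g v ≤ n * err + lam * U.card + 2 * lam * W.card := by
    rw [hg]
    simp only [Finset.sum_add_distrib]
    have h1 : ∑ v ∈ Ico 0 n, err = n * err := by
      rw [Finset.sum_const, Nat.card_Ico, nsmul_eq_mul, Nat.sub_zero]
    have h2 : ∑ v ∈ Ico 0 n, (if v ∈ U then lam else 0) ≤ lam * U.card := by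
      rw [← Finset.sum_filter, Finset.sum_const, nsmul_eq_mul, mul_comm]
      refine mul_le_mul_of_nonneg_left ?_ hl0.le
      exact_mod_cast Finset.card_le_card fun v hv => (Finset.mem_filter.1 hv).2
    have h3 : ∑ v ∈ Ico 0 n, (if v ∈ W then 2 * lam else 0) ≤ 2 * lam * W.card := by
      rw [← Finset.sum_filter, Finset.sum_const, nsmul_eq_mul, mul_comm]
      refine mul_le_mul_of_nonneg_left ?_ (by linarith)
      exact_mod_cast Finset.card_le_card fun v hv => (Finset.mem_filter.1 hv).2
    linarith
  have hW2 : 2 * lam * W.card ≤ 8 * lam / kap * ∑ v ∈ range n, e v := by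
    have h1 : (W.card : ℝ) ≤ 4 / kap * ∑ v ∈ range n, e v := by
      rw [div_mul_eq_mul_div, le_div_iff₀ hk]
      linarith
    have h2 := mul_le_mul_of_nonneg_left h1 (by linarith : 0 ≤ 2 * lam)
    refine h2.trans (le_of_eq ?_)
    ring
  have h9 : (1 - (C / lam + kap)) * (Vl n - Vl 0) =
    (Vl n - Vl 0) - (C / lam + kap) * (Vl n - Vl 0) := by ring
  rw [h9] at h
  linarith

end Pool.RSL
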